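import Pool.Agent.ZGap.CEF.Zeros

/-!
# The archimedean part and the prime part
-/

namespace Pool.Agent.ZGap.CEF

open MeasureTheory Complex Pool.Agent.Hadamard Pool.Agent.ZGap ArithmeticFunction

variable {g : ℝ → ℂ} {H : ℝ}

/-! ### Archimedean part -/

lemma norm_sv_ge (v : ℝ) : 3 / 2 ≤ ‖sv v‖ := by
  have := abs_re_le_norm (sv v)
  rw [sv_re, abs_of_pos (by norm_num)] at this
  exact this

lemma norm_sv_ge' (v : ℝ) : |v| ≤ ‖sv v‖ := by
  have := abs_im_le_norm (sv v)
  rwa [sv_im] at this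

lemma norm_sv_sub_one_ge (v : ℝ) : 1 / 2 ≤ ‖sv v - 1‖ := by
  have := abs_re_le_norm (sv v - 1)
  rw [sub_re, sv_re, one_re] at this
  norm_num at this
  linarith

lemma norm_sv_sub_one_ge' (v : ℝ) : |v| ≤ ‖sv v - 1‖ := by
  have := abs_im_le_norm (sv v - 1)
  rwa [sub_im, sv_im, one_im, sub_zero] at this

/-- The archimedean factor. -/
noncomputable def Ga (v : ℝ) : ℂ := 1 / sv v + 1 / (sv v - 1) + logDeriv Complex.Gamma (sv v / 2) / 2

lemma two_abs_le (u : ℝ) : 2 * |u| ≤ 1 + u ^ 2 := by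
  nlinarith [sq_nonneg (|u| - 1), sq_abs u]

lemma inv_diff {a b : ℂ} {c t u : ℝ} (hc : 0 < c) (ht : 0 < t) (ha : c ≤ ‖a‖) (hb : t ≤ ‖b‖)
    (hab : ‖b - a‖ ≤ |u|) : ‖1 / a - 1 / b‖ ≤ |u| / (c * t) := by
  have ha0 : a ≠ 0 := by rintro rfl; rw [norm_zero] at ha; linarith
  have hb0 : b ≠ 0 := by rintro rfl; rw [norm_zero] at hb; linarith
  rw [div_sub_div _ _ ha0 hb0, one_mul, mul_one, norm_div, norm_mul]
  gcongr

lemma sv_sub_sv (t u : ℝ) : sv t - sv (t - u) = (u : ℂ) * I := by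
  unfold sv; push_cast; ring

lemma norm_u_I (u : ℝ) : ‖(u : ℂ) * I‖ = |u| := by
  rw [norm_mul, norm_I, mul_one, norm_real, Real.norm_eq_abs]

lemma hasDerivAt_sv (v : ℝ) : HasDerivAt sv I v := by
  have h1 : HasDerivAt (fun v : ℝ => (v : ℂ) * I) (1 * I) v :=
    (ofRealCLM.hasDerivAt (x := v)).mul_const I
  have h2 : HasDerivAt sv (1 * I) v := h1.const_add (3 / 2 : ℂ)
  rwa [one_mul] at h2

lemma log_diff {t : ℝ} (ht : 1 ≤ t) (u : ℝ) :
    ‖Complex.log (sv (t - u) / 2) - Complex.log (sv t / 2)‖ ≤ 2 * (1 + u ^ 2) / t := by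
  have ht0 : 0 < t := by linarith
  have hder : ∀ x : ℝ, HasDerivAt (fun x : ℝ => Complex.log (sv x / 2)) (I / sv x) x := by
    intro x
    have h0 : sv x ≠ 0 := by
      intro h
      have := norm_sv_ge x
      rw [h, norm_zero] at this
      linarith
    have h1 : sv x / 2 ∈ slitPlane := by
      left
      have : (sv x / 2).re = 3 / 4 := by simp [sv]; norm_num
      rw [this]; norm_num
    have h2 := ((hasDerivAt_sv x).div_const 2).clog_real h1
    convert h2 using 1
    field_simp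
  have hmv : ∀ c : ℝ, (∀ x ∈ Set.uIcc t (t - u), ‖I / sv x‖ ≤ c) →
      ‖Complex.log (sv (t - u) / 2) - Complex.log (sv t / 2)‖ ≤ c * |u| := by
    intro c hc
    have h := Convex.norm_image_sub_le_of_norm_hasDerivWithin_le
      (f := fun x : ℝ => Complex.log (sv x / 2)) (f' := fun x : ℝ => I / sv x)
      (s := Set.uIcc t (t - u)) (x := t) (y := t - u) (C := c)
      (fun x _ => (hder x).hasDerivWithinAt) hc (convex_uIcc _ _) Set.left_mem_uIcc
      Set.right_mem_uIcc
    rw [Real.norm_eq_abs] at h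
    have h2 : |t - u - t| = |u| := by rw [sub_sub_cancel_left, abs_neg]
    rwa [h2] at h
  rcases le_or_gt |u| (t / 2) with h | h
  · have h1 := hmv (2 / t) ?_
    · refine h1.trans ?_
      rw [div_mul_eq_mul_div]
      gcongr
      linarith [two_abs_le u, sq_nonneg u]
    · intro x hx
      have hx2 : t / 2 ≤ |x| := by
        rw [Set.mem_uIcc] at hx
        have := abs_le.mp h
        refine le_trans ?_ (le_abs_self x)
        rcases hx with hx | hx <;> linarith [hx.1, hx.2, this.1, this.2]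
      have := norm_sv_ge' x
      rw [norm_div, norm_I, div_le_div_iff₀ (by linarith [norm_sv_ge x]) ht0]
      linarith
  · have h1 := hmv 1 ?_
    · refine h1.trans ?_
      rw [one_mul, le_div_iff₀ ht0]
      nlinarith [abs_nonneg u, sq_abs u]
    · intro x _
      rw [norm_div, norm_I, div_le_one (by linarith [norm_sv_ge x])]
      linarith [norm_sv_ge x]

lemma digamma_diff {t : ℝ} (ht : 1 ≤ t) (u : ℝ) :
    ‖logDeriv Complex.Gamma (sv (t - u) / 2) - logDeriv Complex.Gamma (sv t / 2)‖ ≤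
      100 * (1 + u ^ 2) / t := by
  have ht0 : 0 < t := by linarith
  have hre : ∀ v : ℝ, 0 < (sv v / 2).re := by
    intro v
    have : (sv v / 2).re = 3 / 4 := by simp [sv]; norm_num
    rw [this]; norm_num
  have h1 := norm_digamma_sub_log_le (hre (t - u))
  have h2 := norm_digamma_sub_log_le (hre t)
  have h3 := log_diff ht u
  have hn : ∀ v : ℝ, ‖sv v / 2‖ = ‖sv v‖ / 2 := by intro v; rw [norm_div]; norm_num
  rw [hn] at h1 h2
  have hb : ∀ x : ℝ, 0 < x → ∀ r : ℝ, x ≤ r → 2 / (r / 2) ^ 2 + 2 / (r / 2) ≤ 8 / x ^ 2 + 4 / x := by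
    intro x hx r hr
    have e1 : 2 / (r / 2) ^ 2 = 8 / r ^ 2 := by
      have : r ≠ 0 := by linarith
      field_simp; norm_num
    have e2 : 2 / (r / 2) = 4 / r := by
      have : r ≠ 0 := by linarith
      field_simp; norm_num
    rw [e1, e2]
    gcongr
  have hu0 : (0:ℝ) ≤ u ^ 2 := sq_nonneg u
  have h4 : 2 / (‖sv t‖ / 2) ^ 2 + 2 / (‖sv t‖ / 2) ≤ 12 * (1 + u ^ 2) / t := by
    have := hb t ht0 ‖sv t‖ (by have := norm_sv_ge' t; rwa [abs_of_pos ht0] at this)
    refine this.trans ?_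
    rw [div_add_div _ _ (by positivity) (by positivity), div_le_div_iff₀ (by positivity) ht0]
    nlinarith [mul_pos ht0 ht0, mul_nonneg (mul_pos ht0 ht0).le hu0,
      mul_nonneg (mul_nonneg (mul_pos ht0 ht0).le ht0.le) hu0]
  have h5 : 2 / (‖sv (t - u)‖ / 2) ^ 2 + 2 / (‖sv (t - u)‖ / 2) ≤ 80 * (1 + u ^ 2) / t := by
    rcases le_or_gt |u| (t / 2) with h | h
    · have hx : t / 2 ≤ ‖sv (t - u)‖ := by
        refine le_trans ?_ (norm_sv_ge' _)
        refine le_trans ?_ (le_abs_self _)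
        linarith [(abs_le.mp h).2]
      have := hb (t / 2) (by positivity) _ hx
      refine this.trans ?_
      have e1 : 8 / (t / 2) ^ 2 + 4 / (t / 2) = 32 / t ^ 2 + 8 / t := by
        field_simp; ring
      rw [e1, div_add_div _ _ (by positivity) (by positivity), div_le_div_iff₀ (by positivity) ht0]
      nlinarith [mul_pos ht0 ht0, mul_nonneg (mul_pos ht0 ht0).le hu0,
        mul_nonneg (mul_nonneg (mul_pos ht0 ht0).le ht0.le) hu0]
    · have := hb (3 / 2) (by norm_num) _ (norm_sv_ge (t - u))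
      refine this.trans ?_
      rw [le_div_iff₀ ht0]
      norm_num
      nlinarith [abs_nonneg u, sq_abs u]
  have h6 : logDeriv Complex.Gamma (sv (t - u) / 2) - logDeriv Complex.Gamma (sv t / 2) =
      (logDeriv Complex.Gamma (sv (t - u) / 2) - Complex.log (sv (t - u) / 2)) -
      (logDeriv Complex.Gamma (sv t / 2) - Complex.log (sv t / 2)) +
      (Complex.log (sv (t - u) / 2) - Complex.log (sv t / 2)) := by ring
  rw [h6]
  calc _ ≤ 80 * (1 + u ^ 2) / t + 12 * (1 + u ^ 2) / t + 2 * (1 + u ^ 2) / t := by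
        refine (norm_add_le _ _).trans (add_le_add ((norm_sub_le _ _).trans (add_le_add ?_ ?_)) h3)
        · exact h1.trans h5
        · exact h2.trans h4
    _ ≤ _ := by
        rw [← add_div, ← add_div]
        gcongr
        linarith

lemma Ga_diff {t : ℝ} (ht : 1 ≤ t) (u : ℝ) : ‖Ga (t - u) - Ga t‖ ≤ 60 * (1 + u ^ 2) / t := by
  have ht0 : 0 < t := by linarith
  have h1 := inv_diff (a := sv (t - u)) (b := sv t) (c := 3 / 2) (u := u) (by norm_num) ht0
    (norm_sv_ge _) (by have := norm_sv_ge' t; rwa [abs_of_pos ht0] at this)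
    (by rw [sv_sub_sv, norm_u_I])
  have h2 := inv_diff (a := sv (t - u) - 1) (b := sv t - 1) (c := 1 / 2) (u := u) (by norm_num) ht0
    (norm_sv_sub_one_ge _) (by have := norm_sv_sub_one_ge' t; rwa [abs_of_pos ht0] at this)
    (by rw [sub_sub_sub_cancel_right, sv_sub_sv, norm_u_I])
  have h3 := digamma_diff ht u
  have h4 : Ga (t - u) - Ga t = (1 / sv (t - u) - 1 / sv t) + (1 / (sv (t - u) - 1) - 1 / (sv t - 1)) +
      (logDeriv Complex.Gamma (sv (t - u) / 2) - logDeriv Complex.Gamma (sv t / 2)) / 2 := by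
    unfold Ga; ring
  rw [h4]
  have h5 : ‖(logDeriv Complex.Gamma (sv (t - u) / 2) - logDeriv Complex.Gamma (sv t / 2)) / 2‖ ≤
      50 * (1 + u ^ 2) / t := by
    rw [norm_div]
    norm_num
    calc _ ≤ 100 * (1 + u ^ 2) / t / 2 := by gcongr
      _ = _ := by ring
  have h6 := two_abs_le u
  calc _ ≤ |u| / (3 / 2 * t) + |u| / (1 / 2 * t) + 50 * (1 + u ^ 2) / t :=
        (norm_add_le _ _).trans (add_le_add ((norm_add_le _ _).trans (add_le_add h1 h2)) h5)
    _ = (2 / 3 * |u| + 2 * |u| + 50 * (1 + u ^ 2)) / t := by field_simp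
    _ ≤ _ := by
        gcongr
        linarith [sq_nonneg u]

lemma sv_slit (v : ℝ) : 0 < (sv v / 2).re := by
  have : (sv v / 2).re = 3 / 4 := by simp [sv]; norm_num
  rw [this]; norm_num

lemma Ga_continuous : Continuous Ga := by
  have hsv := sv_continuous
  have hU : IsOpen {z : ℂ | 0 < z.re} := isOpen_lt continuous_const Complex.continuous_re
  have h1 : DifferentiableOn ℂ Complex.Gamma {z : ℂ | 0 < z.re} := by
    intro z hz
    refine (Complex.differentiableAt_Gamma z fun m h => ?_).differentiableWithinAt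
    rw [h] at hz
    simp at hz
    have : (0 : ℝ) ≤ m := Nat.cast_nonneg m
    linarith
  have h2 : ContinuousOn (logDeriv Complex.Gamma) {z : ℂ | 0 < z.re} := by
    have h3 := (h1.deriv hU).continuousOn
    refine (h3.div h1.continuousOn fun z hz => Complex.Gamma_ne_zero_of_re_pos hz).congr ?_
    intro z _
    rw [logDeriv_apply]; rfl
  have h4 : Continuous (fun v : ℝ => logDeriv Complex.Gamma (sv v / 2)) :=
    h2.comp_continuous (by fun_prop) fun v => sv_slit v
  have h5 : Continuous (fun v : ℝ => 1 / sv v) := by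
    refine Continuous.div continuous_const hsv fun v h => ?_
    have := norm_sv_ge v
    rw [h, norm_zero] at this
    linarith
  have h6 : Continuous (fun v : ℝ => 1 / (sv v - 1)) := by
    refine Continuous.div continuous_const (by fun_prop) fun v h => ?_
    have := norm_sv_sub_one_ge v
    rw [h, norm_zero] at this
    linarith
  unfold Ga
  exact (h5.add h6).add (h4.div_const 2)

/-- The archimedean contribution. -/
lemma arch_bound (hg : TF g H) {t : ℝ} (ht : 1 ≤ t) :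
    Integrable (fun u : ℝ => hh g u * (Ga (t - u) - Ga t)) ∧
    ‖∫ u : ℝ, hh g u * (Ga (t - u) - Ga t)‖ ≤ 60 * Real.pi * H / t := by
  have ht0 : 0 < t := by linarith
  have hpt : ∀ u : ℝ, ‖hh g u * (Ga (t - u) - Ga t)‖ ≤ 60 * H / t * (1 + u ^ 2)⁻¹ := by
    intro u
    rw [norm_mul]
    have hH := hg.H_nonneg
    have hu : (1 + u ^ 2) ≠ 0 := by positivity
    calc _ ≤ H / (1 + u ^ 2) ^ 2 * (60 * (1 + u ^ 2) / t) := by
          gcongr
          · exact hg.bound u
          · exact Ga_diff ht u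
      _ = 60 * H / t * ((1 + u ^ 2) / (1 + u ^ 2) ^ 2) := by ring
      _ = _ := by rw [pow_two (1 + u ^ 2), div_mul_cancel_left₀ hu]
  have hi : Integrable (fun u : ℝ => hh g u * (Ga (t - u) - Ga t)) := by
    refine (integrable_wt.const_mul _).mono' ?_ (Filter.Eventually.of_forall hpt)
    have h1 := hg.hh_continuous
    have h2 := Ga_continuous
    exact Continuous.aestronglyMeasurable (by fun_prop)
  refine ⟨hi, ?_⟩
  calc _ ≤ ∫ u : ℝ, 60 * H / t * (1 + u ^ 2)⁻¹ :=
        norm_integral_le_of_norm_le (integrable_wt.const_mul _) (Filter.Eventually.of_forall hpt)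
    _ = _ := by
        rw [integral_const_mul, integral_univ_inv_one_add_sq]
        ring

/-! ### Prime part -/

lemma term_eq_cexp (v : ℝ) (n : ℕ) :
    LSeries.term (fun n => ((Λ n : ℝ) : ℂ)) (sv v) n =
      ((Λ n * (n : ℝ) ^ (-(3 / 2) : ℝ) : ℝ) : ℂ) * exp ((-(v * Real.log n) : ℝ) * I) := by
  rcases Nat.eq_zero_or_pos n with h0 | h0
  · rw [h0]; simp
  · rw [LSeries.term_of_ne_zero (by omega)]
    have hn : (0 : ℝ) < n := by exact_mod_cast h0
    have h6 : (n : ℂ) ^ (sv v) = ((n : ℝ) ^ (3 / 2 : ℝ) : ℝ) *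
        Complex.exp ((v * Real.log n : ℝ) * Complex.I) := by
      rw [Complex.cpow_def_of_ne_zero (by exact_mod_cast h0.ne'), sv, mul_add, Complex.exp_add,
        ← Complex.natCast_log]
      congr 1
      · rw [Real.rpow_def_of_pos hn]
        push_cast
        rfl
      · congr 1
        push_cast
        ring
    rw [h6, Real.rpow_neg hn.le, Complex.ofReal_neg, neg_mul, Complex.exp_neg]
    push_cast
    have h8 : (((n : ℝ) ^ (3 / 2 : ℝ) : ℝ) : ℂ) ≠ 0 := by
      exact_mod_cast (Real.rpow_pos_of_pos hn _).ne'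
    have h9 := Complex.exp_ne_zero ((v * Real.log n : ℝ) * Complex.I)
    push_cast at h8 h9
    field_simp

lemma hasSum_zeta (v : ℝ) :
    HasSum (fun n : ℕ => ((Λ n * (n : ℝ) ^ (-(3 / 2) : ℝ) : ℝ) : ℂ) *
      exp ((-(v * Real.log n) : ℝ) * I)) (-logDeriv riemannZeta (sv v)) := by
  have hs : 1 < (sv v).re := by rw [sv_re]; norm_num
  have h1 := LSeriesSummable_vonMangoldt hs
  have h2 := h1.hasSum
  have h3 : ∑' n, LSeries.term (fun n => ((Λ n : ℝ) : ℂ)) (sv v) n =
      - logDeriv riemannZeta (sv v) := by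
    have h4 := LSeries_vonMangoldt_eq_deriv_riemannZeta_div hs
    rw [LSeries] at h4
    rw [h4, logDeriv_apply, neg_div]
  rw [h3] at h2
  have h5 : (fun n : ℕ => ((Λ n * (n : ℝ) ^ (-(3 / 2) : ℝ) : ℝ) : ℂ) *
      exp ((-(v * Real.log n) : ℝ) * I)) = LSeries.term (fun n => ((Λ n : ℝ) : ℂ)) (sv v) := by
    funext n
    exact (term_eq_cexp v n).symm
  rw [h5]
  exact h2

lemma norm_logDeriv_zeta_le (v : ℝ) :
    ‖logDeriv riemannZeta (sv v)‖ ≤ ∑' n : ℕ, Λ n * (n : ℝ) ^ (-(3 / 2) : ℝ) := by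
  rw [← norm_neg, ← (hasSum_zeta v).tsum_eq]
  refine tsum_of_norm_bounded summable_vM.hasSum fun n => ?_
  rw [norm_mul, norm_exp_ofReal_mul_I, mul_one, norm_real, Real.norm_of_nonneg (vM_term_nonneg n)]

lemma logDeriv_zeta_continuous : Continuous (fun v : ℝ => logDeriv riemannZeta (sv v)) := by
  have h : (fun v : ℝ => -logDeriv riemannZeta (sv v)) = fun v => ∑' n : ℕ,
      ((Λ n * (n : ℝ) ^ (-(3 / 2) : ℝ) : ℝ) : ℂ) * exp ((-(v * Real.log n) : ℝ) * I) :=
    funext fun v => ((hasSum_zeta v).tsum_eq).symm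
  have h2 : Continuous (fun v : ℝ => -logDeriv riemannZeta (sv v)) := by
    rw [h]
    refine continuous_tsum (fun n => by fun_prop) summable_vM fun n v => ?_
    rw [norm_mul, norm_exp_ofReal_mul_I, mul_one, norm_real,
      Real.norm_of_nonneg (vM_term_nonneg n)]
  have h3 := h2.neg
  simp only [Pi.neg_def, neg_neg] at h3
  exact h3

/-- The prime side. -/
theorem hasSum_prime (hg : TF g H) (t : ℝ) :
    HasSum (fun n : ℕ => ((Λ n * (n : ℝ) ^ (-(3 / 2) : ℝ) : ℝ) : ℂ) *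
      (2 * Real.pi * g (Real.log n) * exp ((-(t * Real.log n) : ℝ) * I)))
      (-∫ u : ℝ, hh g u * logDeriv riemannZeta (sv (t - u))) := by
  have hcont : ∀ n : ℕ, Continuous fun u : ℝ => ((Λ n * (n : ℝ) ^ (-(3 / 2) : ℝ) : ℝ) : ℂ) *
      (hh g u * exp ((-((t - u) * Real.log n) : ℝ) * I)) := by
    intro n
    have h1 := hg.hh_continuous
    fun_prop
  have hnorm : ∀ (n : ℕ) (u : ℝ), ‖((Λ n * (n : ℝ) ^ (-(3 / 2) : ℝ) : ℝ) : ℂ) *
      (hh g u * exp ((-((t - u) * Real.log n) : ℝ) * I))‖ =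
      (Λ n * (n : ℝ) ^ (-(3 / 2) : ℝ)) * ‖hh g u‖ := by
    intro n u
    rw [norm_mul, norm_mul, norm_exp_ofReal_mul_I, mul_one, norm_real,
      Real.norm_of_nonneg (vM_term_nonneg n)]
  have hint : ∀ n : ℕ, Integrable fun u : ℝ => ((Λ n * (n : ℝ) ^ (-(3 / 2) : ℝ) : ℝ) : ℂ) *
      (hh g u * exp ((-((t - u) * Real.log n) : ℝ) * I)) := by
    intro n
    refine (hg.hh_integrable.norm.const_mul (Λ n * (n : ℝ) ^ (-(3 / 2) : ℝ))).mono'
      (hcont n).aestronglyMeasurable (Filter.Eventually.of_forall fun u => ?_)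
    rw [hnorm]
  have h2 := hasSum_integral_of_summable_integral_norm (μ := volume)
    (F := fun (n : ℕ) (u : ℝ) => ((Λ n * (n : ℝ) ^ (-(3 / 2) : ℝ) : ℝ) : ℂ) *
      (hh g u * exp ((-((t - u) * Real.log n) : ℝ) * I))) hint ?_
  · have e1 : ∀ n : ℕ, ∫ u : ℝ, ((Λ n * (n : ℝ) ^ (-(3 / 2) : ℝ) : ℝ) : ℂ) *
        (hh g u * exp ((-((t - u) * Real.log n) : ℝ) * I)) =
        ((Λ n * (n : ℝ) ^ (-(3 / 2) : ℝ) : ℝ) : ℂ) *
          (2 * Real.pi * g (Real.log n) * exp ((-(t * Real.log n) : ℝ) * I)) := by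
      intro n
      rw [integral_const_mul]
      congr 1
      rw [← hg.inversion (Real.log n), ← integral_mul_const]
      refine integral_congr_ae (Filter.Eventually.of_forall fun u => ?_)
      simp only
      rw [mul_assoc, ← exp_add]
      congr 2
      push_cast
      ring
    have e2 : ∀ u : ℝ, ∑' n : ℕ, ((Λ n * (n : ℝ) ^ (-(3 / 2) : ℝ) : ℝ) : ℂ) *
        (hh g u * exp ((-((t - u) * Real.log n) : ℝ) * I)) =
        hh g u * -logDeriv riemannZeta (sv (t - u)) := by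
      intro u
      rw [← (hasSum_zeta (t - u)).tsum_eq, ← tsum_mul_left]
      refine tsum_congr fun n => ?_
      ring
    simp_rw [e1, e2] at h2
    have e3 : -∫ u : ℝ, hh g u * logDeriv riemannZeta (sv (t - u)) =
        ∫ u : ℝ, hh g u * -logDeriv riemannZeta (sv (t - u)) := by
      rw [← integral_neg]
      refine integral_congr_ae (Filter.Eventually.of_forall fun u => ?_)
      simp only
      ring
    rw [e3]
    exact h2
  · have h3 := summable_vM.mul_right (∫ u : ℝ, ‖hh g u‖)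
    refine h3.congr fun n => ?_
    simp_rw [hnorm]
    rw [integral_const_mul]

/-- **Complex explicit formula** under RH. -/
theorem explicit (hRH : RiemannHypothesis) (hg : TF g H) {t : ℝ} (ht : 1 ≤ t) :
    Summable (fun ρ : ntz => (mult ρ : ℂ) * ff g (t - (ρ : ℂ).im)) ∧
    Summable (fun n : ℕ => ((Λ n * (n : ℝ) ^ (-(3 / 2) : ℝ) : ℝ) : ℂ) *
      (g (Real.log n) * exp ((-(t * Real.log n) : ℝ) * I))) ∧
    ‖∑' ρ : ntz, (mult ρ : ℂ) * ff g (t - (ρ : ℂ).im) +
      ∑' n : ℕ, ((Λ n * (n : ℝ) ^ (-(3 / 2) : ℝ) : ℝ) : ℂ) *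
        (g (Real.log n) * exp ((-(t * Real.log n) : ℝ) * I))‖ ≤ 30 * H / t := by
  have h1 := hasSum_ff hRH hg t
  have h2 := hasSum_prime hg t
  obtain ⟨hi, hb⟩ := arch_bound hg ht
  have hpi : (2 * (Real.pi : ℂ)) ≠ 0 := by
    have := Real.pi_ne_zero
    exact mul_ne_zero two_ne_zero (by exact_mod_cast this)
  have h1' : HasSum (fun ρ : ntz => (mult ρ : ℂ) * ff g (t - (ρ : ℂ).im))
      ((2 * Real.pi : ℂ)⁻¹ * ∫ u : ℝ, hh g u * (logDeriv xiF (sv (t - u)) - logDeriv xiF (sv 0))) := by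
    have h := h1.mul_left ((2 * Real.pi : ℂ)⁻¹)
    have e : (fun ρ : ntz => (2 * Real.pi : ℂ)⁻¹ *
        ((mult ρ : ℂ) * (2 * Real.pi * ff g (t - (ρ : ℂ).im)))) =
        fun ρ : ntz => (mult ρ : ℂ) * ff g (t - (ρ : ℂ).im) := by
      funext ρ
      field_simp
    rw [e] at h
    exact h
  have h2' : HasSum (fun n : ℕ => ((Λ n * (n : ℝ) ^ (-(3 / 2) : ℝ) : ℝ) : ℂ) *
      (g (Real.log n) * exp ((-(t * Real.log n) : ℝ) * I)))
      ((2 * Real.pi : ℂ)⁻¹ * -∫ u : ℝ, hh g u * logDeriv riemannZeta (sv (t - u))) := by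
    have h := h2.mul_left ((2 * Real.pi : ℂ)⁻¹)
    have e : (fun n : ℕ => (2 * Real.pi : ℂ)⁻¹ * (((Λ n * (n : ℝ) ^ (-(3 / 2) : ℝ) : ℝ) : ℂ) *
        (2 * Real.pi * g (Real.log n) * exp ((-(t * Real.log n) : ℝ) * I)))) =
        fun n : ℕ => ((Λ n * (n : ℝ) ^ (-(3 / 2) : ℝ) : ℝ) : ℂ) *
          (g (Real.log n) * exp ((-(t * Real.log n) : ℝ) * I)) := by
      funext n
      field_simp
    rw [e] at h
    exact h
  refine ⟨h1'.summable, h2'.summable, ?_⟩
  rw [h1'.tsum_eq, h2'.tsum_eq]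
  set c : ℂ := Ga t - (Real.log Real.pi : ℂ) / 2 - logDeriv xiF (sv 0) with hc
  have hZ : Integrable (fun u : ℝ => hh g u * logDeriv riemannZeta (sv (t - u))) := by
    refine (hg.hh_integrable.norm.mul_const (∑' n : ℕ, Λ n * (n : ℝ) ^ (-(3 / 2) : ℝ))).mono' ?_
      (Filter.Eventually.of_forall fun u => ?_)
    · exact (hg.hh_continuous.mul
        (logDeriv_zeta_continuous.comp (continuous_const.sub continuous_id))).aestronglyMeasurable
    · rw [norm_mul]
      gcongr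
      exact norm_logDeriv_zeta_le _
  have hpt : ∀ u : ℝ, hh g u * (logDeriv xiF (sv (t - u)) - logDeriv xiF (sv 0)) =
      (hh g u * (Ga (t - u) - Ga t) + hh g u * logDeriv riemannZeta (sv (t - u))) + hh g u * c := by
    intro u
    have hs : 1 ≤ (sv (t - u)).re := by rw [sv_re]; norm_num
    have hs1 : sv (t - u) ≠ 1 := by
      intro h
      have := congrArg Complex.re h
      rw [sv_re, one_re] at this
      norm_num at this
    rw [logDeriv_xiF hs hs1, hc]
    unfold Ga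
    ring
  have hI : ∫ u : ℝ, hh g u * (logDeriv xiF (sv (t - u)) - logDeriv xiF (sv 0)) =
      (∫ u : ℝ, hh g u * (Ga (t - u) - Ga t)) +
        ∫ u : ℝ, hh g u * logDeriv riemannZeta (sv (t - u)) := by
    have hA : Integrable (fun u : ℝ => hh g u * (Ga (t - u) - Ga t) +
        hh g u * logDeriv riemannZeta (sv (t - u))) := hi.add hZ
    simp_rw [hpt]
    rw [integral_add hA (hg.hh_integrable.mul_const c), integral_add hi hZ,
      integral_mul_const, hg.integral_hh, zero_mul, add_zero]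
  rw [hI]
  have e4 : (2 * Real.pi : ℂ)⁻¹ * ((∫ u : ℝ, hh g u * (Ga (t - u) - Ga t)) +
        ∫ u : ℝ, hh g u * logDeriv riemannZeta (sv (t - u))) +
      (2 * Real.pi : ℂ)⁻¹ * -∫ u : ℝ, hh g u * logDeriv riemannZeta (sv (t - u)) =
      (2 * Real.pi : ℂ)⁻¹ * ∫ u : ℝ, hh g u * (Ga (t - u) - Ga t) := by ring
  rw [e4, norm_mul]
  have e5 : ‖(2 * Real.pi : ℂ)⁻¹‖ = (2 * Real.pi)⁻¹ := by
    rw [norm_inv, norm_mul, norm_real, Real.norm_of_nonneg Real.pi_pos.le]
    norm_num
  rw [e5]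
  have hpi0 := Real.pi_pos
  calc _ ≤ (2 * Real.pi)⁻¹ * (60 * Real.pi * H / t) := by gcongr
    _ = _ := by field_simp; ring

end Pool.Agent.ZGap.CEF
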