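import Mathlib

/-!
# Bilateral Laplace transform of a `C⁴` bump function
-/

namespace Pool.Agent.ZGap.CEF

open MeasureTheory Complex

/-- Bilateral Laplace transform. -/
noncomputable def bt (b : ℝ → ℝ) (w : ℂ) : ℂ := ∫ v : ℝ, (b v : ℂ) * exp (w * v)

lemma hasCompactSupport_of_zero {b : ℝ → ℝ} (hs : ∀ v, 1 < |v| → b v = 0) :
    HasCompactSupport b := by
  refine HasCompactSupport.of_support_subset_isCompact (isCompact_Icc (a := -1) (b := 1)) ?_
  intro v hv
  by_contra hv'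
  apply hv
  apply hs
  rw [Set.mem_Icc, ← abs_le, not_le] at hv'
  exact hv'

lemma integrable_bt {b : ℝ → ℝ} (hb : Continuous b) (hs : ∀ v, 1 < |v| → b v = 0) (w : ℂ) :
    Integrable (fun v : ℝ => (b v : ℂ) * exp (w * v)) := by
  apply Continuous.integrable_of_hasCompactSupport
  · exact (continuous_ofReal.comp hb).mul (by fun_prop)
  · have h := hasCompactSupport_of_zero hs
    have h2 : HasCompactSupport (fun v : ℝ => (b v : ℂ)) := h.comp_left (g := ofReal) ofReal_zero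
    exact h2.mul_right

lemma norm_bt_le {b : ℝ → ℝ} {M : ℝ} (hs : ∀ v, 1 < |v| → b v = 0)
    (hM : ∀ v, |b v| ≤ M) (w : ℂ) : ‖bt b w‖ ≤ 2 * M * Real.exp |w.re| := by
  have hM0 : 0 ≤ M := (abs_nonneg _).trans (hM 0)
  have h1 : bt b w = ∫ v in (-1:ℝ)..1, (b v : ℂ) * exp (w * v) := by
    rw [intervalIntegral.integral_of_le (by norm_num), ← integral_Icc_eq_integral_Ioc]
    symm
    apply setIntegral_eq_integral_of_forall_compl_eq_zero
    intro v hv
    rw [hs v, ofReal_zero, zero_mul]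
    rw [Set.mem_Icc, ← abs_le, not_le] at hv
    exact hv
  rw [h1]
  have h2 := intervalIntegral.norm_integral_le_of_norm_le_const (a := (-1:ℝ)) (b := 1)
    (C := M * Real.exp |w.re|) (f := fun v : ℝ => (b v : ℂ) * exp (w * v)) ?_
  · refine h2.trans (le_of_eq ?_)
    norm_num
    ring
  · intro v hv
    rw [Set.uIoc_of_le (by norm_num)] at hv
    rw [norm_mul, norm_real, Real.norm_eq_abs, norm_exp]
    gcongr
    · exact hM v
    · have h3 : (w * (v:ℂ)).re = w.re * v := by simp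
      rw [h3]
      have h4 : |v| ≤ 1 := abs_le.mpr ⟨hv.1.le, hv.2⟩
      calc w.re * v ≤ |w.re * v| := le_abs_self _
        _ = |w.re| * |v| := abs_mul _ _
        _ ≤ |w.re| * 1 := by gcongr
        _ = |w.re| := mul_one _

lemma mul_bt {b : ℝ → ℝ} (hb : ContDiff ℝ 1 b) (hs : ∀ v, 1 < |v| → b v = 0) (w : ℂ) :
    w * bt b w = - bt (deriv b) w := by
  have hd : Continuous (deriv b) := hb.continuous_deriv le_rfl
  have hs' : ∀ v, 1 < |v| → deriv b v = 0 := by
    intro v hv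
    have hev : b =ᶠ[nhds v] fun _ => 0 := by
      have : IsOpen {x : ℝ | 1 < |x|} := isOpen_lt continuous_const continuous_abs
      filter_upwards [this.mem_nhds hv] with x hx
      exact hs x hx
    rw [hev.deriv_eq]
    simp
  have h := integral_mul_deriv_eq_deriv_mul_of_integrable (u := fun v : ℝ => (b v : ℂ))
    (v := fun v : ℝ => exp (w * v)) (u' := fun v : ℝ => ((deriv b v : ℝ) : ℂ))
    (v' := fun v : ℝ => exp (w * v) * w)
    (fun x _ => ((hb.differentiable one_ne_zero).differentiableAt.hasDerivAt (x := x)).ofReal_comp)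
    (fun x _ => by
      have h1 : HasDerivAt (fun v : ℝ => w * (v : ℂ)) w x := by
        simpa using (ofRealCLM.hasDerivAt (x := x)).const_mul w
      exact h1.cexp) ?_ ?_ ?_
  · unfold bt
    rw [← h, ← integral_const_mul]
    refine integral_congr_ae (Filter.Eventually.of_forall fun v => ?_)
    simp only
    ring
  · have := (integrable_bt hb.continuous hs w).mul_const w
    refine this.congr (Filter.Eventually.of_forall fun v => ?_)
    simp only [Pi.mul_apply]
    ring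
  · exact integrable_bt hd hs' w
  · exact integrable_bt hb.continuous hs w

lemma deriv_zero_of_zero {b : ℝ → ℝ} (hs : ∀ v, 1 < |v| → b v = 0) :
    ∀ v, 1 < |v| → deriv b v = 0 := by
  intro v hv
  have hev : b =ᶠ[nhds v] fun _ => 0 := by
    have : IsOpen {x : ℝ | 1 < |x|} := isOpen_lt continuous_const continuous_abs
    filter_upwards [this.mem_nhds hv] with x hx
    exact hs x hx
  rw [hev.deriv_eq]
  simp

/-- Decay of the Laplace transform. -/
theorem exists_bt_decay {b : ℝ → ℝ} (hb : ContDiff ℝ 4 b) (hs : ∀ v, 1 < |v| → b v = 0) :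
    ∃ C : ℝ, 0 < C ∧ ∀ w : ℂ, ‖bt b w‖ ≤ C * Real.exp |w.re| / (1 + ‖w‖ ^ 2) ^ 2 := by
  have hb3 : ContDiff ℝ 3 (deriv b) := by
    have := (contDiff_succ_iff_deriv (n := 3) (f := b)).mp (by norm_num; exact hb)
    exact this.2.2
  have hb2 : ContDiff ℝ 2 (deriv (deriv b)) := by
    have := (contDiff_succ_iff_deriv (n := 2) (f := deriv b)).mp (by norm_num; exact hb3)
    exact this.2.2
  have hb1 : ContDiff ℝ 1 (deriv (deriv (deriv b))) := by
    have := (contDiff_succ_iff_deriv (n := 1) (f := deriv (deriv b))).mp (by norm_num; exact hb2)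
    exact this.2.2
  have hb0 : Continuous (deriv (deriv (deriv (deriv b)))) := hb1.continuous_deriv le_rfl
  have s1 := deriv_zero_of_zero hs
  have s2 := deriv_zero_of_zero s1
  have s3 := deriv_zero_of_zero s2
  have s4 := deriv_zero_of_zero s3
  obtain ⟨M0, hM0⟩ := (hasCompactSupport_of_zero hs).exists_bound_of_continuous hb.continuous
  obtain ⟨M4, hM4⟩ := (hasCompactSupport_of_zero s4).exists_bound_of_continuous hb0
  have hM00 : 0 ≤ M0 := (norm_nonneg _).trans (hM0 0)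
  have hM40 : 0 ≤ M4 := (norm_nonneg _).trans (hM4 0)
  refine ⟨4 * M0 + 4 * M4 + 1, by positivity, fun w => ?_⟩
  have h1 : w ^ 4 * bt b w = bt (deriv (deriv (deriv (deriv b)))) w := by
    have e1 := mul_bt (hb.of_le (by norm_num)) hs w
    have e2 := mul_bt (hb3.of_le (by norm_num)) s1 w
    have e3 := mul_bt (hb2.of_le (by norm_num)) s2 w
    have e4 := mul_bt hb1 s3 w
    linear_combination w ^ 3 * e1 - w ^ 2 * e2 + w * e3 - e4
  have h2 := norm_bt_le hs hM0 w
  have h3 := norm_bt_le s4 hM4 w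
  rw [← h1, norm_mul, norm_pow] at h3
  rw [le_div_iff₀ (by positivity)]
  have h4 : (1 + ‖w‖ ^ 2) ^ 2 ≤ 2 * (1 + ‖w‖ ^ 4) := by nlinarith [sq_nonneg (1 - ‖w‖ ^ 2)]
  have h5 := Real.exp_pos |w.re|
  calc ‖bt b w‖ * (1 + ‖w‖ ^ 2) ^ 2 ≤ ‖bt b w‖ * (2 * (1 + ‖w‖ ^ 4)) := by gcongr
    _ = 2 * (‖bt b w‖ + ‖w‖ ^ 4 * ‖bt b w‖) := by ring
    _ ≤ 2 * (2 * M0 * Real.exp |w.re| + 2 * M4 * Real.exp |w.re|) := by gcongr
    _ ≤ _ := by nlinarith

lemma norm_bt_le_right {b : ℝ → ℝ} {M hi : ℝ} (hhi : 0 ≤ hi) (hs0 : ∀ v, v < 0 → b v = 0)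
    (hs1 : ∀ v, hi < v → b v = 0) (hM : ∀ v, |b v| ≤ M) {w : ℂ} (hw : 0 ≤ w.re) :
    ‖bt b w‖ ≤ hi * M * Real.exp (hi * w.re) := by
  have hM0 : 0 ≤ M := (abs_nonneg _).trans (hM 0)
  have h1 : bt b w = ∫ v in (0:ℝ)..hi, (b v : ℂ) * exp (w * v) := by
    rw [intervalIntegral.integral_of_le hhi, ← integral_Icc_eq_integral_Ioc]
    symm
    apply setIntegral_eq_integral_of_forall_compl_eq_zero
    intro v hv
    rw [Set.mem_Icc, not_and_or, not_le, not_le] at hv
    rcases hv with hv | hv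
    · rw [hs0 v hv, ofReal_zero, zero_mul]
    · rw [hs1 v hv, ofReal_zero, zero_mul]
  rw [h1]
  have h2 := intervalIntegral.norm_integral_le_of_norm_le_const (a := (0:ℝ)) (b := hi)
    (C := M * Real.exp (hi * w.re)) (f := fun v : ℝ => (b v : ℂ) * exp (w * v)) ?_
  · refine h2.trans (le_of_eq ?_)
    rw [sub_zero, abs_of_nonneg hhi]
    ring
  · intro v hv
    rw [Set.uIoc_of_le hhi] at hv
    rw [norm_mul, norm_real, Real.norm_eq_abs, norm_exp]
    gcongr
    · exact hM v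
    · have h3 : (w * (v:ℂ)).re = w.re * v := by simp
      rw [h3, mul_comm]
      gcongr
      exact hv.2

/-- Decay of the Laplace transform, support in `[0, hi]`. -/
theorem exists_bt_decay_right {b : ℝ → ℝ} (hb : ContDiff ℝ 4 b) {hi : ℝ} (hhi : 0 ≤ hi)
    (hhi1 : hi ≤ 1) (hs0 : ∀ v, v < 0 → b v = 0) (hs1 : ∀ v, hi < v → b v = 0) :
    ∃ C : ℝ, 0 < C ∧ ∀ w : ℂ, 0 ≤ w.re →
      ‖bt b w‖ ≤ C * Real.exp (hi * w.re) / (1 + ‖w‖ ^ 2) ^ 2 := by
  have hs : ∀ v, 1 < |v| → b v = 0 := by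
    intro v hv
    rcases lt_or_ge v 0 with h | h
    · exact hs0 v h
    · rw [abs_of_nonneg h] at hv
      exact hs1 v (by linarith)
  have d0 : ∀ {b : ℝ → ℝ}, (∀ v, v < 0 → b v = 0) → ∀ v, v < 0 → deriv b v = 0 := by
    intro b h v hv
    have hev : b =ᶠ[nhds v] fun _ => 0 := by
      filter_upwards [isOpen_Iio.mem_nhds hv] with x hx
      exact h x hx
    rw [hev.deriv_eq]
    simp
  have d1 : ∀ {b : ℝ → ℝ}, (∀ v, hi < v → b v = 0) → ∀ v, hi < v → deriv b v = 0 := by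
    intro b h v hv
    have hev : b =ᶠ[nhds v] fun _ => 0 := by
      filter_upwards [isOpen_Ioi.mem_nhds hv] with x hx
      exact h x hx
    rw [hev.deriv_eq]
    simp
  have hb3 : ContDiff ℝ 3 (deriv b) := by
    have := (contDiff_succ_iff_deriv (n := 3) (f := b)).mp (by norm_num; exact hb)
    exact this.2.2
  have hb2 : ContDiff ℝ 2 (deriv (deriv b)) := by
    have := (contDiff_succ_iff_deriv (n := 2) (f := deriv b)).mp (by norm_num; exact hb3)
    exact this.2.2
  have hb1 : ContDiff ℝ 1 (deriv (deriv (deriv b))) := by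
    have := (contDiff_succ_iff_deriv (n := 1) (f := deriv (deriv b))).mp (by norm_num; exact hb2)
    exact this.2.2
  have hb0 : Continuous (deriv (deriv (deriv (deriv b)))) := hb1.continuous_deriv le_rfl
  have s1 := deriv_zero_of_zero hs
  have s2 := deriv_zero_of_zero s1
  have s3 := deriv_zero_of_zero s2
  have s4 := deriv_zero_of_zero s3
  obtain ⟨M0, hM0⟩ := (hasCompactSupport_of_zero hs).exists_bound_of_continuous hb.continuous
  obtain ⟨M4, hM4⟩ := (hasCompactSupport_of_zero s4).exists_bound_of_continuous hb0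
  have hM00 : 0 ≤ M0 := (norm_nonneg _).trans (hM0 0)
  have hM40 : 0 ≤ M4 := (norm_nonneg _).trans (hM4 0)
  refine ⟨2 * M0 + 2 * M4 + 1, by positivity, fun w hw => ?_⟩
  have h1 : w ^ 4 * bt b w = bt (deriv (deriv (deriv (deriv b)))) w := by
    have e1 := mul_bt (hb.of_le (by norm_num)) hs w
    have e2 := mul_bt (hb3.of_le (by norm_num)) s1 w
    have e3 := mul_bt (hb2.of_le (by norm_num)) s2 w
    have e4 := mul_bt hb1 s3 w
    linear_combination w ^ 3 * e1 - w ^ 2 * e2 + w * e3 - e4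
  have h2 := norm_bt_le_right hhi hs0 hs1 hM0 hw
  have h3 := norm_bt_le_right hhi (d0 (d0 (d0 (d0 hs0)))) (d1 (d1 (d1 (d1 hs1)))) hM4 hw
  rw [← h1, norm_mul, norm_pow] at h3
  rw [le_div_iff₀ (by positivity)]
  have h4 : (1 + ‖w‖ ^ 2) ^ 2 ≤ 2 * (1 + ‖w‖ ^ 4) := by nlinarith [sq_nonneg (1 - ‖w‖ ^ 2)]
  have h5 := Real.exp_pos (hi * w.re)
  have h6 : hi * M0 * Real.exp (hi * w.re) ≤ 1 * M0 * Real.exp (hi * w.re) := by gcongr
  have h7 : hi * M4 * Real.exp (hi * w.re) ≤ 1 * M4 * Real.exp (hi * w.re) := by gcongr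
  calc ‖bt b w‖ * (1 + ‖w‖ ^ 2) ^ 2 ≤ ‖bt b w‖ * (2 * (1 + ‖w‖ ^ 4)) := by gcongr
    _ = 2 * (‖bt b w‖ + ‖w‖ ^ 4 * ‖bt b w‖) := by ring
    _ ≤ 2 * (1 * M0 * Real.exp (hi * w.re) + 1 * M4 * Real.exp (hi * w.re)) := by
        have h8 := h2.trans h6
        have h9 := h3.trans h7
        linarith
    _ ≤ _ := by nlinarith

end Pool.Agent.ZGap.CEF
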