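import Mathlib

/-!
# Test functions and Fourier inversion
-/

namespace Pool.Agent.ZGap.CEF

open MeasureTheory Complex
open scoped FourierTransform

/-- The transform `∫ g(y) e^{-iuy} dy`. -/
noncomputable def hh (g : ℝ → ℂ) (u : ℝ) : ℂ := ∫ y : ℝ, g y * exp ((-(u * y) : ℝ) * I)

/-- Test functions: continuous, compactly supported in `(0,∞)`, with transform `O((1+u²)^{-2})`. -/
structure TF (g : ℝ → ℂ) (H : ℝ) : Prop where
  cont : Continuous g
  cs : HasCompactSupport g
  pos : ∀ y ≤ 0, g y = 0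
  bound : ∀ u : ℝ, ‖hh g u‖ ≤ H / (1 + u ^ 2) ^ 2

variable {g : ℝ → ℂ} {H : ℝ}

lemma TF.integrable (hg : TF g H) : Integrable g := hg.cont.integrable_of_hasCompactSupport hg.cs

lemma TF.H_nonneg (hg : TF g H) : 0 ≤ H := by
  have h := (norm_nonneg _).trans (hg.bound 0)
  simpa using h

lemma fourier_eq_hh (g : ℝ → ℂ) (w : ℝ) : 𝓕 g w = hh g (2 * Real.pi * w) := by
  rw [Real.fourier_real_eq_integral_exp_smul, hh]
  refine integral_congr_ae (Filter.Eventually.of_forall fun y => ?_)
  simp only [smul_eq_mul]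
  rw [mul_comm]
  congr 3
  push_cast
  ring

lemma TF.hh_continuous (hg : TF g H) : Continuous (hh g) := by
  unfold hh
  refine continuous_of_dominated (bound := fun y => ‖g y‖) (fun u => ?_) (fun u => ?_)
    hg.integrable.norm ?_
  · have := hg.cont
    exact Continuous.aestronglyMeasurable (by fun_prop)
  · refine Filter.Eventually.of_forall fun y => ?_
    rw [norm_mul, norm_exp_ofReal_mul_I, mul_one]
  · refine Filter.Eventually.of_forall fun y => ?_
    fun_prop

lemma integrable_wt : Integrable (fun u : ℝ => (1 + u ^ 2)⁻¹) := integrable_inv_one_add_sq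

lemma wt_le (u : ℝ) {H : ℝ} (hH : 0 ≤ H) : H / (1 + u ^ 2) ^ 2 ≤ H * (1 + u ^ 2)⁻¹ := by
  rw [div_eq_mul_inv]
  gcongr
  nlinarith [sq_nonneg u, sq_nonneg (u ^ 2)]

lemma TF.norm_hh_le (hg : TF g H) (u : ℝ) : ‖hh g u‖ ≤ H * (1 + u ^ 2)⁻¹ :=
  (hg.bound u).trans (wt_le u hg.H_nonneg)

lemma TF.hh_integrable (hg : TF g H) : Integrable (hh g) := by
  refine (integrable_wt.const_mul H).mono' hg.hh_continuous.aestronglyMeasurable
    (Filter.Eventually.of_forall fun u => ?_)
  exact hg.norm_hh_le u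

/-- Fourier inversion. -/
theorem TF.inversion (hg : TF g H) (y : ℝ) :
    ∫ u : ℝ, hh g u * exp ((u * y : ℝ) * I) = 2 * Real.pi * g y := by
  have hF : 𝓕 g = fun w => hh g (2 * Real.pi * w) := funext (fourier_eq_hh g)
  have hpi : (2 * Real.pi) ≠ 0 := by positivity
  have hint : Integrable (𝓕 g) := by
    rw [hF]
    exact hg.hh_integrable.comp_mul_left' hpi
  have h := congrFun (hg.cont.fourierInv_fourier_eq hg.integrable hint) y
  rw [hF, Real.fourierInv_eq'] at h
  have h2 := Measure.integral_comp_mul_left (fun u : ℝ => hh g u * exp ((u * y : ℝ) * I))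
    (2 * Real.pi)
  have h3 : ∫ w : ℝ, hh g (2 * Real.pi * w) * exp ((2 * Real.pi * w * y : ℝ) * I) = g y := by
    rw [← h]
    refine integral_congr_ae (Filter.Eventually.of_forall fun w => ?_)
    simp only [smul_eq_mul]
    rw [mul_comm]
    congr 3
    simp only [RCLike.inner_apply, conj_trivial]
    push_cast
    ring
  rw [h3, abs_of_pos (by positivity), Complex.real_smul] at h2
  rw [h2]
  have h4 : ((2 * Real.pi : ℝ) : ℂ) ≠ 0 := by exact_mod_cast hpi
  rw [ofReal_inv, ← mul_assoc]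
  have h5 : (2 * (Real.pi : ℂ)) = ((2 * Real.pi : ℝ) : ℂ) := by push_cast; rfl
  rw [h5, mul_inv_cancel₀ h4, one_mul]

lemma TF.integral_hh (hg : TF g H) : ∫ u : ℝ, hh g u = 0 := by
  have h := hg.inversion 0
  rw [hg.pos 0 le_rfl] at h
  simpa using h

/-- The kernel `f(x) = ∫ g(y) e^{-y} e^{-iyx} dy`. -/
noncomputable def ff (g : ℝ → ℂ) (x : ℝ) : ℂ := ∫ y : ℝ, g y * exp (-(1 + x * I) * y)

lemma integral_exp_Ioi {z : ℂ} (hz : 0 < z.re) :
    ∫ y in Set.Ioi (0:ℝ), exp (-z * y) = 1 / z := by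
  have h := integral_exp_mul_complex_Ioi (a := -z) (by simpa using hz) 0
  rw [h]
  simp

/-- `∫ h(u)/(1+i(x-u)) du = 2π f(x)`. -/
theorem TF.integral_hh_div (hg : TF g H) (x : ℝ) :
    ∫ u : ℝ, hh g u * (1 / (1 + (x - u : ℝ) * I)) = 2 * Real.pi * ff g x := by
  have h1 : ∀ u : ℝ, hh g u * (1 / (1 + (x - u : ℝ) * I)) =
      ∫ y in Set.Ioi (0:ℝ), hh g u * exp (-(1 + (x - u : ℝ) * I) * y) := by
    intro u
    rw [integral_const_mul, integral_exp_Ioi (by simp)]
  simp_rw [h1]
  have hprod : Integrable (fun p : ℝ × ℝ => hh g p.1 * exp (-(1 + (x - p.1 : ℝ) * I) * p.2))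
      (volume.prod (volume.restrict (Set.Ioi 0))) := by
    have h2 : Integrable (fun y : ℝ => Real.exp (-y)) (volume.restrict (Set.Ioi 0)) := by
      have := integrableOn_exp_neg_Ioi 0
      exact this
    have h3 := hg.hh_integrable.norm.mul_prod h2
    refine h3.mono' ?_ (Filter.Eventually.of_forall fun p => ?_)
    · have := hg.hh_continuous
      exact Continuous.aestronglyMeasurable (by fun_prop)
    · rw [norm_mul, norm_exp]
      gcongr
      simp
  rw [integral_integral_swap hprod]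
  have h4 : ∀ y : ℝ, ∫ u : ℝ, hh g u * exp (-(1 + (x - u : ℝ) * I) * y) =
      2 * Real.pi * (g y * exp (-(1 + x * I) * y)) := by
    intro y
    have h5 := hg.inversion y
    calc _ = ∫ u : ℝ, (hh g u * exp ((u * y : ℝ) * I)) * exp (-(1 + x * I) * y) := by
          refine integral_congr_ae (Filter.Eventually.of_forall fun u => ?_)
          simp only
          rw [mul_assoc, ← exp_add]
          congr 2
          push_cast
          ring
      _ = _ := by
          rw [integral_mul_const, h5]; ring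
  simp_rw [h4]
  rw [integral_const_mul, ff]
  congr 1
  apply setIntegral_eq_integral_of_forall_compl_eq_zero
  intro y hy
  rw [Set.mem_Ioi, not_lt] at hy
  rw [hg.pos y hy, zero_mul]

end Pool.Agent.ZGap.CEF
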