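import Pool.Agent.ZGap.CEF.Inv
import Pool.Agent.ZGap.Explicit
import Pool.Agent.Lib.Hadamard.RvMInt

/-!
# The zero side of the complex explicit formula
-/

namespace Pool.Agent.ZGap.CEF

open MeasureTheory Complex Pool.Agent.Hadamard Pool.Agent.ZGap

variable {g : ℝ → ℂ} {H : ℝ}

lemma sv_sub (hRH : RiemannHypothesis) (v : ℝ) (ρ : ntz) :
    sv v - ρ = 1 + ((v - (ρ:ℂ).im : ℝ) : ℂ) * I := by
  apply Complex.ext
  · rw [sub_re, sv_re, re_half hRH]; simp; norm_num
  · rw [sub_im, sv_im]; simp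

lemma norm_sq_one_add (x : ℝ) : ‖(1 + (x : ℂ) * I)‖ ^ 2 = 1 + x ^ 2 := by
  rw [Complex.sq_norm, normSq_apply]; simp; ring

lemma one_add_ne (x : ℝ) : (1 + (x : ℂ) * I) ≠ 0 := by
  intro h
  have h2 := norm_sq_one_add x
  rw [h, norm_zero] at h2
  nlinarith [sq_nonneg x]

lemma norm_diff_le (v γ : ℝ) :
    ‖1 / (1 + ((v - γ : ℝ) : ℂ) * I) - 1 / (1 + ((0 - γ : ℝ) : ℂ) * I)‖ ≤
      2 * (1 + v ^ 2) / (1 + γ ^ 2) := by
  have h1 : 1 / (1 + ((v - γ : ℝ) : ℂ) * I) - 1 / (1 + ((0 - γ : ℝ) : ℂ) * I) =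
      -(v : ℂ) * I / ((1 + ((v - γ : ℝ) : ℂ) * I) * (1 + ((0 - γ : ℝ) : ℂ) * I)) := by
    rw [div_sub_div _ _ (one_add_ne _) (one_add_ne _)]
    congr 1
    push_cast
    ring
  have h2 := peetre v γ
  rw [h1, ← abs_of_nonneg (norm_nonneg _), ← abs_of_nonneg
    (by positivity : 0 ≤ 2 * (1 + v ^ 2) / (1 + γ ^ 2))]
  apply sq_le_sq.mp
  rw [norm_div, norm_mul, norm_mul, norm_neg, norm_I, mul_one, norm_real, div_pow, mul_pow,
    norm_sq_one_add, norm_sq_one_add, Real.norm_eq_abs, sq_abs, div_pow,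
    div_le_div_iff₀ (by positivity) (by positivity)]
  have h3 : (0 - γ) ^ 2 = γ ^ 2 := by ring
  rw [h3]
  have e1 : 0 < 1 + γ ^ 2 := by positivity
  have e2 : 0 < 1 + (v - γ) ^ 2 := by positivity
  have e3 : 0 < 1 + v ^ 2 := by positivity
  calc v ^ 2 * (1 + γ ^ 2) ^ 2 ≤ (1 + v ^ 2) * (1 + γ ^ 2) ^ 2 := by gcongr; linarith
    _ = (1 + γ ^ 2) * ((1 + v ^ 2) * (1 + γ ^ 2)) := by ring
    _ ≤ (2 * (1 + v ^ 2) * (1 + (v - γ) ^ 2)) * ((1 + v ^ 2) * (1 + γ ^ 2)) := by gcongr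
    _ ≤ _ := by
        have : 0 ≤ (1 + v ^ 2) ^ 2 * ((1 + (v - γ) ^ 2) * (1 + γ ^ 2)) := by positivity
        nlinarith

/-- The zero side. -/
theorem hasSum_ff (hRH : RiemannHypothesis) (hg : TF g H) (t : ℝ) :
    HasSum (fun ρ : ntz => (mult ρ : ℂ) * (2 * Real.pi * ff g (t - (ρ : ℂ).im)))
      (∫ u : ℝ, hh g u * (logDeriv xiF (sv (t - u)) - logDeriv xiF (sv 0))) := by
  have hbd : ∀ (ρ : ntz) (u : ℝ), ‖(mult ρ : ℂ) * (hh g u * (1 / (sv (t - u) - ρ) - 1 / (sv 0 - ρ)))‖ ≤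
      (mult ρ : ℝ) * (4 * H * (1 + t ^ 2) / (1 + (ρ : ℂ).im ^ 2)) * (1 + u ^ 2)⁻¹ := by
    intro ρ u
    rw [sv_sub hRH, sv_sub hRH, norm_mul, norm_mul, norm_natCast, mul_assoc]
    refine mul_le_mul_of_nonneg_left ?_ (Nat.cast_nonneg _)
    have h1 := norm_diff_le (t - u) (ρ : ℂ).im
    have h2 := peetre t (t - u)
    have h3 := hg.bound u
    have h4 : t - (t - u) = u := by ring
    rw [h4] at h2
    have hH := hg.H_nonneg
    have hu : (1 + u ^ 2) ≠ 0 := by positivity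
    calc _ ≤ H / (1 + u ^ 2) ^ 2 * (2 * (1 + (t - u) ^ 2) / (1 + (ρ : ℂ).im ^ 2)) := by gcongr
      _ ≤ H / (1 + u ^ 2) ^ 2 * (2 * (2 * (1 + t ^ 2) * (1 + u ^ 2)) / (1 + (ρ : ℂ).im ^ 2)) := by
          gcongr
      _ = 4 * H * (1 + t ^ 2) / (1 + (ρ : ℂ).im ^ 2) * ((1 + u ^ 2) / (1 + u ^ 2) ^ 2) := by ring
      _ = _ := by
          congr 1
          rw [pow_two (1 + u ^ 2), div_mul_cancel_left₀ hu]
  have hcont : ∀ ρ : ntz, Continuous fun u : ℝ =>
      (mult ρ : ℂ) * (hh g u * (1 / (sv (t - u) - ρ) - 1 / (sv 0 - ρ))) := by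
    intro ρ
    have h1 := hg.hh_continuous
    have h2 : Continuous fun u : ℝ => 1 / (sv (t - u) - ρ) := by
      refine Continuous.div continuous_const ?_ fun u => ?_
      · have := sv_continuous
        fun_prop
      · rw [sv_sub hRH]; exact one_add_ne _
    exact continuous_const.mul (h1.mul (h2.sub continuous_const))
  have hint : ∀ ρ : ntz, Integrable fun u : ℝ =>
      (mult ρ : ℂ) * (hh g u * (1 / (sv (t - u) - ρ) - 1 / (sv 0 - ρ))) := by
    intro ρ
    exact (integrable_wt.const_mul _).mono' (hcont ρ).aestronglyMeasurable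
      (Filter.Eventually.of_forall (hbd ρ))
  have h2 := hasSum_integral_of_summable_integral_norm (μ := volume)
    (F := fun (ρ : ntz) (u : ℝ) =>
      (mult ρ : ℂ) * (hh g u * (1 / (sv (t - u) - ρ) - 1 / (sv 0 - ρ)))) hint ?_
  · have e1 : ∀ ρ : ntz, ∫ u : ℝ,
        (mult ρ : ℂ) * (hh g u * (1 / (sv (t - u) - ρ) - 1 / (sv 0 - ρ))) =
        (mult ρ : ℂ) * (2 * Real.pi * ff g (t - (ρ : ℂ).im)) := by
      intro ρ
      rw [integral_const_mul]
      congr 1
      have h3 : ∀ u : ℝ, hh g u * (1 / (sv (t - u) - ρ) - 1 / (sv 0 - ρ)) =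
          hh g u * (1 / (1 + ((t - (ρ : ℂ).im - u : ℝ) : ℂ) * I)) - hh g u * (1 / (sv 0 - ρ)) := by
        intro u
        rw [sv_sub hRH (t - u)]
        have : t - u - (ρ : ℂ).im = t - (ρ : ℂ).im - u := by ring
        rw [this]
        ring
      simp_rw [h3]
      rw [integral_sub, hg.integral_hh_div, integral_mul_const, hg.integral_hh, zero_mul, sub_zero]
      · refine hg.hh_integrable.norm.mono' ?_ (Filter.Eventually.of_forall fun u => ?_)
        · refine (hg.hh_continuous.mul ?_).aestronglyMeasurable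
          exact Continuous.div continuous_const (by fun_prop) fun u => one_add_ne _
        · rw [norm_mul]
          refine mul_le_of_le_one_right (norm_nonneg _) ?_
          rw [norm_div, norm_one]
          have h5 := norm_sq_one_add (t - (ρ : ℂ).im - u)
          have h6 : 1 ≤ ‖(1 + ((t - (ρ : ℂ).im - u : ℝ) : ℂ) * I)‖ := by
            nlinarith [norm_nonneg (1 + ((t - (ρ : ℂ).im - u : ℝ) : ℂ) * I),
              sq_nonneg (t - (ρ : ℂ).im - u)]
          rw [div_le_one (by linarith)]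
          exact h6
      · exact hg.hh_integrable.mul_const _
    have e2 : ∀ u : ℝ, ∑' ρ : ntz,
        (mult ρ : ℂ) * (hh g u * (1 / (sv (t - u) - ρ) - 1 / (sv 0 - ρ))) =
        hh g u * (logDeriv xiF (sv (t - u)) - logDeriv xiF (sv 0)) := by
      intro u
      have hn : ∀ v : ℝ, sv v ∉ ntz := by
        intro v hv
        have := hv.2.2
        rw [sv_re] at this
        norm_num at this
      have h3 := hasSum_complex_zeros (hn (t - u)) (hn 0)
      rw [← h3.tsum_eq, ← tsum_mul_left]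
      refine tsum_congr fun ρ => ?_
      ring
    simp_rw [e1, e2] at h2
    exact h2
  · have h3 := (hasSum_poisson hRH 0).summable.mul_left (4 * H * (1 + t ^ 2) * Real.pi)
    refine Summable.of_nonneg_of_le (fun ρ => ?_) (fun ρ => ?_) h3
    · exact integral_nonneg fun u => norm_nonneg _
    · calc _ ≤ ∫ u : ℝ, (mult ρ : ℝ) * (4 * H * (1 + t ^ 2) / (1 + (ρ : ℂ).im ^ 2)) * (1 + u ^ 2)⁻¹ :=
            integral_mono (hint ρ).norm (integrable_wt.const_mul _) (hbd ρ)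
        _ = _ := by
            rw [integral_const_mul, integral_univ_inv_one_add_sq]
            have : (0 - (ρ : ℂ).im) ^ 2 = (ρ : ℂ).im ^ 2 := by ring
            rw [this]
            ring

end Pool.Agent.ZGap.CEF
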